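import Pool.Agent.L5helper39.HI.Hyp

/-!
# The Grothendieck period conjecture in bounded degree for infinite sequences of hypergeometric motives

Let `β_(j,1), …, β_(j,m_j)`, `j = 0, 1, 2, …`, be rational numbers which are not integers; the `m_j` can be unbounded. The
hypergeometric operator `θ^(2 m_j) - z ∏_i (θ² - β_(j,i)²)`, `θ = z d/dz`, has maximally unipotent monodromy at `z = 0`
(Calabi–Yau type; elliptic curves for `m_j = 1`, mirror quintic for `m_j = 2`, `β_j = (1/5, 2/5)`). `M_(j,t)` is the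
de Rham-Betti object of its fibre at `z = 1 / t`, with the period matrix `(Y_j(t) Ω_j)ᵀ` (rows: Betti side), where `Y_j(t)`
is the matrix of the derivatives of the Frobenius basis and `Ω_j` is a matrix of constants (the periods of the limit
motive) with `Ω_jᵀ J_j Ω_j = 2πi B_j`, `B_j` rational: the polarisation, normalised by a Tate twist to weight one. `K(t)` is
the Kummer motive of `t`, with the periods `2πi` and `log t`.

The integers `t_0, t_1, …` are chosen one after another; at each step only a sparse set `E_j(t_0, …, t_(j-1))` of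
exceptional integers has to be avoided: at most `C_j (1 + N / (x + N)^(c_j))` integers of every interval `(x, x + N]`, where
`c_j > 0` and `C_j` do not depend on the previous choices, on the constants `Ω_j` and on `x`. Then for ALL sets `S` of
indices, finite or infinite, with `min S ≥ k`, the periods of the motives `K(t_j) ⊕ M_(j,t_j)`, `j ∈ S`, satisfy the period
conjecture in degree `≤ ψ(k)`, over all number fields of degree `≤ ψ(k)` and without any bound on heights, also relative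
to the periods of the previous motives, `i < k`, and to the first terms of any given sequence of complex numbers `ξ` (for
example an enumeration of the periods of all varieties over number fields). Here `ψ` is any function. So for a fixed
degree `d` all relations of degree `≤ d` between `2πi`, the logarithms of the infinitely many integers `t_j` and the periods
of the infinitely many hypergeometric motives, with the exception of the first few of them, come from the polarisations.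
-/

set_option autoImplicit false

open PowerSeries Matrix

namespace Pool.Agent.Results.MP_77d3f5_ag.HypergeometricSequences

/-- the power series `k + ε` in the variable `ε` -/
noncomputable def shift (k : ℕ) : PowerSeries ℚ := C (k : ℚ) + X

/-- `a_k(ε) = ∏_{l < k} ∏_j ((l + ε)^2 - β_j^2) / (l + 1 + ε)^(2m)`. The series `∑_k a_k(ε) z^(k + ε)` solves the
equation `(θ^n - z ∏_j (θ^2 - β_j^2)) f = ε^n z^ε`, hence its coefficients `f_j` at `ε^j` with `j < n = 2m` are
solutions of the homogeneous equation. -/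
noncomputable def frob {m : ℕ} (β : Fin m → ℚ) (k : ℕ) : PowerSeries ℚ :=
  ∏ l ∈ Finset.range k, ((∏ j, (shift l ^ 2 - C (β j ^ 2))) * ((shift (l + 1))⁻¹) ^ (2 * m))

/-- The matrix with the entries `(θ^i f_j)(1 / t)`, where `f_j(z)` is the coefficient of `ε^j` in the series
`∑_k a_k(ε) z^(k + ε)`, `z^ε = ∑_l (log z)^l ε^l / l!`. -/
noncomputable def Y {m : ℕ} (β : Fin m → ℚ) (t : ℕ) : Matrix (Fin (2 * m)) (Fin (2 * m)) ℂ :=
  Matrix.of fun i j => ∑ l ∈ Finset.range ((j : ℕ) + 1), ((Real.log (1 / t) ^ l / l.factorial : ℝ) : ℂ) *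
    ∑' k : ℕ, ((coeff ((j : ℕ) - l) (shift k ^ (i : ℕ) * frob β k) : ℚ) : ℂ) * (1 / (t : ℂ)) ^ k

/-- the polynomial `∏_j (x^2 - β_j^2)` -/
noncomputable def poly {m : ℕ} (β : Fin m → ℚ) : Polynomial ℚ := ∏ j, (Polynomial.X ^ 2 - Polynomial.C (β j ^ 2))

/-- The matrix of the intersection form: the entry `(i, j)` is `(-1)^i q_{i+j+1-n}` for `i + j + 1 ≥ n` and `0`
otherwise, where `q_l` are the coefficients of `∏_j (x^2 - β_j^2)`. -/
noncomputable def J {m : ℕ} (β : Fin m → ℚ) : Matrix (Fin (2 * m)) (Fin (2 * m)) ℂ :=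
  Matrix.of fun i j => if 2 * m ≤ (i : ℕ) + j + 1 then (((-1) ^ (i : ℕ) * (poly β).coeff (i + j + 1 - 2 * m) : ℚ) : ℂ) else 0

/-- the number `2πi` -/
noncomputable def twoPiI : ℂ := 2 * Real.pi * Complex.I

/-- a sequence of hypergeometric families: `β_(j,1), …, β_(j,m_j)` are rational numbers which are not integers,
`j = 0, 1, 2, …` -/
structure Families where
  /-- half of the ranks -/
  m : ℕ → ℕ
  pos : ∀ j, 1 ≤ m j
  /-- the exponents -/
  β : ∀ j, Fin (m j) → ℚ
  nonint : ∀ j i, ∀ a : ℤ, β j i ≠ a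

/-- the constants: complex matrices `Ω_j` with `Ω_jᵀ J_j Ω_j = 2πi B_j`, `B_j` an invertible rational matrix -/
structure Constants (𝓕 : Families) where
  /-- the periods of the limit motives -/
  Ω : ∀ j, Matrix (Fin (2 * 𝓕.m j)) (Fin (2 * 𝓕.m j)) ℂ
  /-- the polarisations on the Betti side -/
  B : ∀ j, Matrix (Fin (2 * 𝓕.m j)) (Fin (2 * 𝓕.m j)) ℚ
  det : ∀ j, (B j).det ≠ 0
  form : ∀ j, (Ω j)ᵀ * J (𝓕.β j) * Ω j = twoPiI • (B j).map (algebraMap ℚ ℂ)

/-- the period matrix of `M_(j,t_j)` -/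
noncomputable def mat {𝓕 : Families} (L : Constants 𝓕) (t : ℕ → ℕ) (j : ℕ) :
    Matrix (Fin (2 * 𝓕.m j)) (Fin (2 * 𝓕.m j)) ℂ := (Y (𝓕.β j) (t j) * L.Ω j)ᵀ

/-- the logarithm of `t_j` -/
noncomputable def lg (t : ℕ → ℕ) (j : ℕ) : ℂ := ((Real.log (t j) : ℝ) : ℂ)

/-- the indices of the coordinates of the motives `K(t_j) ⊕ M_(j,t_j)`, `j ∈ S` -/
abbrev Ind (𝓕 : Families) (S : Set ℕ) : Type := Σ j : S, Option (Fin (2 * 𝓕.m j) × Fin (2 * 𝓕.m j))

/-- the coordinates `u_j` and the entries of the `X_j`, `j ∈ S` -/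
def coords {𝓕 : Families} {S : Set ℕ} (u : S → ℂ) (X : ∀ j : S, Matrix (Fin (2 * 𝓕.m j)) (Fin (2 * 𝓕.m j)) ℂ) :
    Ind 𝓕 S → ℂ := fun x => x.2.elim (u x.1) fun e => X x.1 e.1 e.2

/-- the complex points over `lam` of the torsor of the motives `M_(j,t)`, `j ∈ S`: the `X_j` with
`X_j J_j X_jᵀ = lam B_j` for all `j ∈ S` -/
def Torsor {𝓕 : Families} (L : Constants 𝓕) (S : Set ℕ) (lam : ℂ) :
    Set (∀ j : S, Matrix (Fin (2 * 𝓕.m j)) (Fin (2 * 𝓕.m j)) ℂ) :=
  {X | ∀ j : S, X j * J (𝓕.β j) * (X j)ᵀ = lam • (L.B j).map (algebraMap ℚ ℂ)}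

/-- every polynomial `P` of degree `≤ D` with coefficients in a number field of degree `≤ D` (any such field, no bound
on the height of the coefficients), which vanishes at `2πi`, the `log t_j` and the periods of the `M_(j,t_j)`, `j ∈ S`,
vanishes at all points `(lam, u, X)`, `lam ≠ 0`, `u_j` arbitrary, `X ∈ Torsor lam` -/
def DegreeGPC {𝓕 : Families} (L : Constants 𝓕) (t : ℕ → ℕ) (S : Set ℕ) (D : ℕ) : Prop :=
  ∀ (K : Type) [Field K] [NumberField K] (φ : K →+* ℂ) (P : MvPolynomial (Option (Ind 𝓕 S)) K),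
    Module.finrank ℚ K ≤ D → P.totalDegree ≤ D →
    (P.map φ).eval (fun o => o.elim twoPiI (coords (fun j => lg t j) fun j => mat L t j)) = 0 →
    ∀ lam : ℂ, lam ≠ 0 → ∀ u : S → ℂ, ∀ X ∈ Torsor L S lam, (P.map φ).eval (fun o => o.elim lam (coords u X)) = 0

/-- the known numbers: `2πi`, the first `D` terms of the sequence `ξ`, `log t_i` and the periods of `M_(i,t_i)`, `i < k` -/
def known {𝓕 : Families} (L : Constants 𝓕) (ξ : ℕ → ℂ) (t : ℕ → ℕ) (D k : ℕ) : Set ℂ :=
  {z | z = twoPiI ∨ (∃ i < D, z = ξ i) ∨ ∃ i < k, z = lg t i ∨ ∃ a b, z = mat L t i a b}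

/-- relations relative to a set `T` of numbers: every polynomial `P` of degree `≤ D` with coefficients in a number field of
degree `≤ D`, in elements of `T`, in the `u_j` and in the entries of the `X_j`, which vanishes at the `log t_j` and the
periods of the `M_(j,t_j)`, `j ∈ S`, vanishes for all `u_j` and all the points `X` of the torsor over `2πi` (with the same
elements of `T`) -/
def RelativeGPC {𝓕 : Families} (L : Constants 𝓕) (t : ℕ → ℕ) (S : Set ℕ) (T : Set ℂ) (D : ℕ) : Prop :=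
  ∀ (K : Type) [Field K] [NumberField K] (φ : K →+* ℂ) (P : MvPolynomial (T ⊕ Ind 𝓕 S) K),
    Module.finrank ℚ K ≤ D → P.totalDegree ≤ D →
    (P.map φ).eval (Sum.elim (fun z : T => (z : ℂ)) (coords (fun j => lg t j) fun j => mat L t j)) = 0 →
    ∀ u : S → ℂ, ∀ X ∈ Torsor L S twoPiI, (P.map φ).eval (Sum.elim (fun z : T => (z : ℂ)) (coords u X)) = 0

open Pool.Agent.L5helper39.HI

theorem frob_eq {m : ℕ} (β : Fin m → ℚ) (k : ℕ) : frob β k = Pool.Agent.Y119.HY.aq (2 * m) (Pool.Agent.Y119.HY.QB β) k := by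
  unfold frob Pool.Agent.Y119.HY.aq
  refine Finset.prod_congr rfl fun l _ => ?_
  congr 1
  unfold Pool.Agent.Y119.HY.QB
  rw [map_prod]
  refine Finset.prod_congr rfl fun j _ => ?_
  simp only [map_sub, map_pow, Polynomial.aeval_X, Polynomial.aeval_C]
  rfl

theorem shift_eq (k : ℕ) : shift k = Pool.Agent.Y119.HY.kx k := rfl

theorem J_eq {m : ℕ} (β : Fin m → ℚ) :
    J β = Pool.Agent.Y119.HY.cm (Pool.Agent.Y119.HY.Jm (2 * m) (Pool.Agent.Y119.HY.QB β)) := by
  ext i j
  rw [Pool.Agent.Y119.HY.cm_apply]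
  unfold J Pool.Agent.Y119.HY.Jm
  rw [Matrix.of_apply, Matrix.of_apply]
  split_ifs
  · rfl
  · simp

theorem Y_eq {m : ℕ} (β : Fin m → ℚ) (t : ℕ) :
    Y β t = Pool.Agent.Y119.HZ.Yt (2 * m) (Pool.Agent.Y119.HY.QB β) t := by
  ext i j
  unfold Y Pool.Agent.Y119.HZ.Yt
  rw [Matrix.of_apply, Matrix.mul_apply]
  have hE : ∀ c : Fin (2 * m), Pool.Agent.Y119.HY.E (Pool.Agent.Y119.HY.cm (Pool.Agent.Y119.HY.Am (2 * m)))
      (-((Real.log t : ℝ) : ℂ)) c j = ∑ l ∈ Finset.range (2 * m),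
        if (j : ℕ) = c + l then ((Real.log (1 / t) ^ l / l.factorial : ℝ) : ℂ) else 0 := by
    intro c
    unfold Pool.Agent.Y119.HY.E
    rw [Matrix.sum_apply]
    refine Finset.sum_congr rfl fun l _ => ?_
    rw [Matrix.smul_apply, ← Pool.Agent.Y119.HY.cm_pow, Pool.Agent.Y119.HY.cm_apply, Pool.Agent.Y119.HY.Am_pow, smul_eq_mul,
      one_div, Real.log_inv]
    split_ifs
    · push_cast
      ring
    · simp
  simp only [hE, Finset.mul_sum]
  rw [Finset.sum_comm]
  have hsub : Finset.range ((j : ℕ) + 1) ⊆ Finset.range (2 * m) := by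
    intro l hl
    rw [Finset.mem_range] at hl ⊢
    have := j.2
    omega
  refine Finset.sum_subset_zero_on_sdiff hsub (fun l hl => ?_) fun l hl => ?_
  · rw [Finset.mem_sdiff, Finset.mem_range, Finset.mem_range] at hl
    refine Finset.sum_eq_zero fun c _ => ?_
    rw [if_neg (by omega), mul_zero]
  · rw [Finset.mem_range] at hl
    have hj := j.2
    rw [Finset.sum_eq_single (⟨(j : ℕ) - l, by omega⟩ : Fin (2 * m))]
    · rw [if_pos (by simp only; omega), mul_comm]
      congr 1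
      unfold Pool.Agent.Y119.HY.Hf Pool.Agent.Y119.HY.ps
      rw [Matrix.of_apply]
      refine tsum_congr fun k => ?_
      show _ = ((Pool.Agent.Y119.HY.hq (2 * m) (Pool.Agent.Y119.HY.QB β) k i ((j : ℕ) - l) : ℚ) : ℂ) *
        (((1 / (t : ℝ) : ℝ)) : ℂ) ^ k
      rw [frob_eq, shift_eq]
      unfold Pool.Agent.Y119.HY.hq
      push_cast
      rfl
    · intro c _ hc
      rw [if_neg, mul_zero]
      intro h
      apply hc
      apply Fin.ext
      simp only
      omega
    · intro h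
      exact absurd (Finset.mem_univ _) h

theorem beta_ne {𝓕 : Families} (j : ℕ) (i : Fin (𝓕.m j)) (l : ℕ) : (l : ℚ) + 𝓕.β j i ≠ 0 ∧ (l : ℚ) + -𝓕.β j i ≠ 0 := by
  constructor
  · intro h
    apply 𝓕.nonint j i (-(l : ℤ))
    push_cast
    linear_combination h
  · intro h
    apply 𝓕.nonint j i (l : ℤ)
    push_cast
    linear_combination -h

/-- the data of the families -/
theorem data {𝓕 : Families} (L : Constants 𝓕) (j : ℕ) :
    HD (2 * 𝓕.m j) (Pool.Agent.Y119.HY.QB (𝓕.β j)) (L.Ω j) (L.B j) where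
  hQ := Pool.Agent.Y119.HZ.QD_QB (𝓕.pos j) (beta_ne j)
  hH := fun a b => Pool.Agent.Y119.HY.sdc_hps (beta_ne j) (Pool.Agent.Y119.HZ.QD_QB (𝓕.pos j) (beta_ne j)) a b
  hB := L.det j
  hΩ := by
    rw [← J_eq]
    exact L.form j

/-- the families -/
noncomputable def fams {𝓕 : Families} (L : Constants 𝓕) (j : ℕ) : Fam := (data L j).fam

open Classical in
/-- a point as a point of the product of all fibres -/
noncomputable def extend {𝓕 : Families} (L : Constants 𝓕) {S : Set ℕ} (u : S → ℂ)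
    (X : ∀ j : S, Matrix (Fin (2 * 𝓕.m j)) (Fin (2 * 𝓕.m j)) ℂ) : (Σ j : ℕ, (fams L j).I) → ℂ := fun x =>
  if h : x.1 ∈ S then coords u X ⟨⟨x.1, h⟩, x.2⟩ else 0

theorem extend_io {𝓕 : Families} (L : Constants 𝓕) {S : Set ℕ} (u : S → ℂ)
    (X : ∀ j : S, Matrix (Fin (2 * 𝓕.m j)) (Fin (2 * 𝓕.m j)) ℂ) : extend L u X ∘ io (fams L) S = coords u X := by
  funext x
  show extend L u X (io (fams L) S x) = coords u X x
  unfold extend io
  simp only
  rw [dif_pos x.1.2]
  rfl

theorem extend_mem {𝓕 : Families} (L : Constants 𝓕) (t : ℕ → ℕ) {S : Set ℕ} {lam : ℂ} (u : S → ℂ)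
    {X : ∀ j : S, Matrix (Fin (2 * 𝓕.m j)) (Fin (2 * 𝓕.m j)) ℂ} (hX : X ∈ Torsor L S lam) (j : ℕ) :
    (fun i => extend L u X ⟨j, i⟩) ∈ Fs (fams L) S t lam j := by
  unfold Fs extend
  by_cases h : j ∈ S
  · rw [if_pos h]
    simp only [dif_pos h]
    show Matrix.of (fun a b => X ⟨j, h⟩ a b) * _ * (Matrix.of (fun a b => X ⟨j, h⟩ a b)).transpose = _
    rw [← J_eq]
    exact hX ⟨j, h⟩
  · rw [if_neg h]
    simp only [dif_neg h]
    rfl

theorem ps_io {𝓕 : Families} (L : Constants 𝓕) (t : ℕ → ℕ) (S : Set ℕ) :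
    ps (fams L) t S ∘ io (fams L) S = coords (𝓕 := 𝓕) (S := S) (fun j => lg t j) fun j => mat L t j := by
  funext x
  obtain ⟨j, o⟩ := x
  show ps (fams L) t S (io (fams L) S ⟨j, o⟩) = _
  unfold ps io
  simp only
  rw [if_pos j.2]
  rcases o with _ | e
  · rfl
  · show (Pool.Agent.Y119.HZ.Yt (2 * 𝓕.m j) (Pool.Agent.Y119.HY.QB (𝓕.β j)) (t j) * L.Ω j).transpose e.1 e.2 =
      (Y (𝓕.β j) (t j) * L.Ω j).transpose e.1 e.2
    rw [Y_eq]

theorem known_eq {𝓕 : Families} (L : Constants 𝓕) (ξ : ℕ → ℂ) (t : ℕ → ℕ) (D k : ℕ) :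
    known L ξ t D k = Kn (fams L) ξ t D k := by
  ext z
  constructor
  · rintro (h | ⟨i, hi, h⟩ | ⟨i, hi, h | ⟨a, b, h⟩⟩)
    · exact Or.inl h
    · exact Or.inr (Or.inl ⟨i, hi, h⟩)
    · exact Or.inr (Or.inr ⟨i, hi, none, h⟩)
    · refine Or.inr (Or.inr ⟨i, hi, some (a, b), ?_⟩)
      show z = (Pool.Agent.Y119.HZ.Yt (2 * 𝓕.m i) (Pool.Agent.Y119.HY.QB (𝓕.β i)) (t i) * L.Ω i).transpose a b
      rw [← Y_eq]
      exact h
  · rintro (h | ⟨i, hi, h⟩ | ⟨i, hi, o, h⟩)
    · exact Or.inl h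
    · exact Or.inr (Or.inl ⟨i, hi, h⟩)
    · rcases o with _ | ⟨a, b⟩
      · exact Or.inr (Or.inr ⟨i, hi, Or.inl h⟩)
      · refine Or.inr (Or.inr ⟨i, hi, Or.inr ⟨a, b, ?_⟩⟩)
        have h' : z = (Pool.Agent.Y119.HZ.Yt (2 * 𝓕.m i) (Pool.Agent.Y119.HY.QB (𝓕.β i)) (t i) * L.Ω i).transpose a b := h
        rw [← Y_eq] at h'
        exact h'

/-- Let `𝓕` be a sequence of hypergeometric families and `ψ : ℕ → ℕ` any function. There are `c_j > 0` and `C_j` such that
for all constants `Ω_j`, `B_j` and every sequence `ξ` of complex numbers there are sets `E_j(t)` of natural numbers, which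
depend only on `t_0, …, t_(j-1)` and contain at most `C_j (1 + N / (x + N)^(c_j))` integers of every interval `(x, x + N]`,
`x, N ≥ 1`, such that for all sequences `t` of natural numbers and all sets `S` (finite or infinite) with `t_j ≥ 2`,
`t_j ∉ E_j(t)` for `j ∈ S`: the period matrices of the `M_(j,t_j)`, `j ∈ S`, are on the torsor over `2πi`; and for all `k`
with `k ≤ j` for `j ∈ S`, all relations of degree `≤ ψ(k)` over number fields of degree `≤ ψ(k)` between `2πi`, the `log t_j`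
and the periods of the `M_(j,t_j)`, `j ∈ S`, hold on the torsor, and all such relations with `2πi`, the `ξ_i`, `i < ψ(k)`, the
`log t_i` and the periods of the `M_(i,t_i)`, `i < k`, hold on the torsor over `2πi`. -/
theorem result (𝓕 : Families) (ψ : ℕ → ℕ) :
    ∃ c C : ℕ → ℝ, (∀ j, 0 < c j) ∧ ∀ (L : Constants 𝓕) (ξ : ℕ → ℂ), ∃ E : ℕ → (ℕ → ℕ) → Set ℕ,
      (∀ j t t', (∀ i < j, t i = t' i) → E j t = E j t') ∧
      (∀ j t (x N : ℕ), 1 ≤ x → 1 ≤ N →
        ((E j t ∩ Set.Ioc x (x + N)).ncard : ℝ) ≤ C j * (1 + N / ((x : ℝ) + N) ^ c j)) ∧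
      ∀ (t : ℕ → ℕ) (S : Set ℕ), (∀ j ∈ S, 2 ≤ t j ∧ t j ∉ E j t) →
        (fun j : S => mat L t j) ∈ Torsor L S twoPiI ∧
        ∀ k, (∀ j ∈ S, k ≤ j) →
          DegreeGPC L t S (ψ k) ∧ RelativeGPC L t S (known L ξ t (ψ k) k) (ψ k) := by
  classical
  set Φ : ℕ → ℕ := fun j => ∑ i ∈ Finset.range (j + 1), ψ i with hΦ
  set δ : ℕ → ℕ := fun j => ∑ i ∈ Finset.range (j + 1), 2 * (ψ i * max 1 (ψ i)) with hδ
  have hsp := fun j => HD.sparse (Fintype.card (Option (Option (Fin (Φ j) ⊕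
    Σ i : Fin j, Option (Fin (2 * 𝓕.m i) × Fin (2 * 𝓕.m i)))))) (δ j)
    (Pool.Agent.Y119.HZ.QD_QB (𝓕.pos j) (beta_ne j))
    (fun a b => Pool.Agent.Y119.HY.sdc_hps (beta_ne j) (Pool.Agent.Y119.HZ.QD_QB (𝓕.pos j) (beta_ne j)) a b)
  choose c C hc hsp using hsp
  refine ⟨c, C, hc, fun L ξ => ?_⟩
  obtain ⟨E, hE1, hE2, hE3⟩ := main (A := fams L) ψ Φ δ hΦ hδ
    (fun j Z => ∀ (x N : ℕ), 1 ≤ x → 1 ≤ N → ((Z ∩ Set.Ioc x (x + N)).ncard : ℝ) ≤ C j * (1 + N / ((x : ℝ) + N) ^ c j))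
    (fun j W hW hWw x N hx hN => hsp j (L.Ω j) (L.B j) (data L j) W hW
      (hWw.trans (le_of_eq (Fintype.card_congr (Equiv.refl _)))) x N hx hN) ξ
  refine ⟨E, hE1, fun j t x N hx hN => hE2 j t x N hx hN, fun t S hS => ?_⟩
  obtain ⟨hG, hrel⟩ := hE3 t S fun j hj => (hS j hj).2
  refine ⟨fun j => ?_, fun k hk => ⟨?_, ?_⟩⟩
  · have h1 := (data L j).pp_mem (hG j j.2)
    show (Y (𝓕.β j) (t j) * L.Ω j)ᵀ * J (𝓕.β j) * ((Y (𝓕.β j) (t j) * L.Ω j)ᵀ)ᵀ = twoPiI • (L.B j).map (algebraMap ℚ ℂ)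
    rw [Y_eq, J_eq]
    exact h1
  · intro K _ _ φ P hK hP h0 lam hl u X hX
    have h1 := (hrel k hk K hK φ).1 P hP (by
      rw [ps_io, MvPolynomial.aeval_eq_eval]
      exact h0) lam hl (extend L u X) (extend_mem L t u hX)
    rw [extend_io, MvPolynomial.aeval_eq_eval] at h1
    exact h1
  · rw [known_eq]
    intro K _ _ φ P hK hP h0 u X hX
    have h1 := (hrel k hk K hK φ).2 P hP (by
      rw [ps_io, MvPolynomial.aeval_eq_eval]
      exact h0) (extend L u X) (extend_mem L t u hX)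
    rw [extend_io, MvPolynomial.aeval_eq_eval] at h1
    exact h1

end Pool.Agent.Results.MP_77d3f5_ag.HypergeometricSequences
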