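import Pool.Agent.L5helper73.Inf.G

/-!
# The Grothendieck period conjecture in bounded degree for infinite sequences of hyperelliptic curves

`f_0, f_1, f_2, …` is any sequence of monic polynomials over `ℚ` of even degrees `n_j = 2 g_j` (of any growth) with
distinct real roots, different from `0`, and `C_j` is the curve `y² = f_j(x) (x - 1/t_j)` of genus `g_j`, `t_j` a positive
integer. The integers `t_0, t_1, …` are chosen one after another; at each step only a sparse set `B_j(t_0, …, t_(j-1))`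
of exceptional integers (at most `M_j T^(1 - γ_j)` of the integers up to `T`, where `M_j` and `γ_j > 0` do not depend on the
previous choices) has to be avoided. Then for ALL sets `J` of such indices, finite or infinite, with `min J ≥ k`, the
periods of the curves `C_j`, `j ∈ J`, satisfy the period conjecture in degree `≤ ψ(k)`, over all number fields of degree
`≤ ψ(k)` and without any bound on heights, also relative to the periods of the previous curves `C_i`, `i < k`, and to the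
first terms of any given sequence of complex numbers `c` (for example an enumeration of the periods of all varieties over
number fields, or of any countable field). Here `ψ` is any function. So for a fixed degree `d` all relations of degree `≤ d`
between the periods of the infinitely many curves, with the exception of the first few curves, come from the
polarisations.
-/

set_option autoImplicit false

open Polynomial

namespace Pool.Agent.Results.MP_77d3f5_ag.InfiniteSequences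

/-- the branch points: `t` inserted at place `m` in the sequence of the `a i` -/
noncomputable def branch {n : ℕ} (a : Fin n → ℝ) (m : Fin (n + 1)) (t : ℝ) : Fin (n + 1) → ℝ :=
  Fin.insertNth (α := fun _ => ℝ) m t a

/-- the period `∮ x^j dx / y`, `y² = ∏ (x - e i)`, over the loop around the segment `[e l, e (l + 1)]`, that is twice
the integral over the segment (principal branch of the square root) -/
noncomputable def period {n : ℕ} (e : Fin (n + 1) → ℝ) (l j : Fin n) : ℂ :=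
  2 * ∫ x in (e l.castSucc)..(e l.succ), (x : ℂ) ^ (j : ℕ) / (((∏ i, (x - e i) : ℝ) : ℂ) ^ (1 / 2 : ℂ))

/-- the polarisation in terms of the forms `x^j dx / y`, `y² = F(x) = ∑ c_k x^k`: entries `(i - j)/2 * c_(i+j+2)` -/
noncomputable def polDR (n : ℕ) (F : ℚ[X]) : Matrix (Fin n) (Fin n) ℚ :=
  Matrix.of fun i j => (((i : ℕ) : ℚ) - ((j : ℕ) : ℚ)) / 2 * F.coeff ((i : ℕ) + (j : ℕ) + 2)

/-- the polarisation in terms of the loops: `2 (-1)^r` at `(r, s)`, `|r - s| = 1` -/
def polB (n : ℕ) : Matrix (Fin n) (Fin n) ℚ :=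
  Matrix.of fun r s => if (r : ℕ) = s + 1 ∨ (s : ℕ) = r + 1 then 2 * (-1) ^ (r : ℕ) else 0

/-- a sequence of families of curves `y² = f_j(x) (x - z)`, `j = 0, 1, 2, …`: `f_j` is monic over `ℚ` of even degree `n_j`
with roots `a_j`, real, in increasing order, different from `0`; `m_j` is the place of `0` among the roots -/
structure Families where
  /-- the degrees -/
  n : ℕ → ℕ
  even : ∀ j, Even (n j)
  /-- the roots -/
  a : ∀ j, Fin (n j) → ℝ
  /-- the polynomials -/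
  f : ℕ → ℚ[X]
  roots : ∀ j, (f j).map (algebraMap ℚ ℝ) = ∏ i, (X - C (a j i))
  /-- the place of `0` -/
  m : ∀ j, Fin (n j + 1)
  gap : ∀ j, StrictMono (branch (a j) (m j) 0)

/-- the period matrix of the curve `C_j : y² = f_j(x) (x - 1 / t_j)` -/
noncomputable def mat (𝓕 : Families) (t : ℕ → ℕ) (j : ℕ) : Matrix (Fin (𝓕.n j)) (Fin (𝓕.n j)) ℂ :=
  Matrix.of (period (branch (𝓕.a j) (𝓕.m j) (1 / (t j : ℝ))))

/-- the indices of the entries of the matrices of the curves `C_j`, `j ∈ J` -/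
abbrev Ind (𝓕 : Families) (J : Set ℕ) : Type := Σ j : J, Fin (𝓕.n j) × Fin (𝓕.n j)

/-- the entries of the matrices `X_j`, `j ∈ J` -/
def entries {𝓕 : Families} {J : Set ℕ} (X : ∀ j : J, Matrix (Fin (𝓕.n j)) (Fin (𝓕.n j)) ℂ) : Ind 𝓕 J → ℂ :=
  fun x => X x.1 x.2.1 x.2.2

/-- the complex points over `lam` of the torsor of the curves `C_j`, `j ∈ J`: the `X_j` with
`X_j polDR(F_j) X_jᵀ = lam polB` for all `j ∈ J`, `F_j = f_j(x) (x - 1 / t_j)` -/
def Torsor (𝓕 : Families) (t : ℕ → ℕ) (J : Set ℕ) (lam : ℂ) : Set (∀ j : J, Matrix (Fin (𝓕.n j)) (Fin (𝓕.n j)) ℂ) :=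
  {X | ∀ j : J, X j * (polDR (𝓕.n j) (𝓕.f j * (Polynomial.X - C (1 / (t j : ℚ))))).map (algebraMap ℚ ℂ) *
    (X j).transpose = lam • (polB (𝓕.n j)).map (algebraMap ℚ ℂ)}

/-- every polynomial `P` of degree `≤ D` with coefficients in a number field of degree `≤ D` (any such field, no bound
on the height of the coefficients), which vanishes at `2πi` and the periods of the curves `C_j`, `j ∈ J`, vanishes at all
points `(lam, X)`, `lam ≠ 0`, `X ∈ Torsor lam` -/
def DegreeGPC (𝓕 : Families) (t : ℕ → ℕ) (J : Set ℕ) (D : ℕ) : Prop :=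
  ∀ (K : Type) [Field K] [NumberField K] (φ : K →+* ℂ) (P : MvPolynomial (Option (Ind 𝓕 J)) K),
    Module.finrank ℚ K ≤ D → P.totalDegree ≤ D →
    (P.map φ).eval (fun o => o.elim (2 * Real.pi * Complex.I) (entries fun j => mat 𝓕 t j)) = 0 →
    ∀ lam : ℂ, lam ≠ 0 → ∀ X ∈ Torsor 𝓕 t J lam, (P.map φ).eval (fun o => o.elim lam (entries X)) = 0

/-- the known numbers: `2πi`, the first `D` terms of the sequence `c`, the periods of the curves `C_i`, `i < k` -/
def known (𝓕 : Families) (c : ℕ → ℂ) (t : ℕ → ℕ) (D k : ℕ) : Set ℂ :=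
  {z | z = 2 * Real.pi * Complex.I ∨ (∃ i < D, z = c i) ∨ ∃ i < k, ∃ l l', z = mat 𝓕 t i l l'}

/-- relations relative to a set `S` of numbers: every polynomial `P` of degree `≤ D` with coefficients in a number field of
degree `≤ D`, in elements of `S` and in the entries of the matrices, which vanishes at the periods of the curves `C_j`,
`j ∈ J`, vanishes at all the points of the torsor over `2πi` (with the same elements of `S`) -/
def RelativeGPC (𝓕 : Families) (t : ℕ → ℕ) (J : Set ℕ) (S : Set ℂ) (D : ℕ) : Prop :=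
  ∀ (K : Type) [Field K] [NumberField K] (φ : K →+* ℂ) (P : MvPolynomial (S ⊕ Ind 𝓕 J) K),
    Module.finrank ℚ K ≤ D → P.totalDegree ≤ D →
    (P.map φ).eval (Sum.elim (fun z : S => (z : ℂ)) (entries fun j => mat 𝓕 t j)) = 0 →
    ∀ X ∈ Torsor 𝓕 t J (2 * Real.pi * Complex.I), (P.map φ).eval (Sum.elim (fun z : S => (z : ℂ)) (entries X)) = 0

open Pool.Agent.L5helper73.Inf Pool.Agent.Y118.HP Pool.Agent.Y118.HG

theorem mem_Torsor {𝓕 : Families} {t : ℕ → ℕ} {J : Set ℕ} {lam : ℂ}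
    {X : ∀ j : J, Matrix (Fin (𝓕.n j)) (Fin (𝓕.n j)) ℂ} (hX : X ∈ Torsor 𝓕 t J lam) (j : J) :
    X j ∈ FM (Qt (n := 𝓕.n j) (𝓕.f j) (t j)) lam := by
  have h1 := hX j
  have e1 : polDR (𝓕.n j) (𝓕.f j * (Polynomial.X - C (1 / (t j : ℚ)))) =
      qm (𝓕.n j) (𝓕.f j * (Polynomial.X - C (1 / (t j : ℚ)))) := rfl
  have e2 : polB (𝓕.n j) = bm ℚ (𝓕.n j) := rfl
  rw [e1, e2, qm_eq, bm_eq] at h1
  show X j * Qt (n := 𝓕.n j) (𝓕.f j) (t j) * (X j).transpose = lam • jm ℂ (𝓕.n j)
  unfold Qt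
  rw [Matrix.mul_smul, Matrix.smul_mul, h1, smul_smul, smul_smul]
  congr 1
  ring

theorem Torsor_of {𝓕 : Families} {t : ℕ → ℕ} {J : Set ℕ} {lam : ℂ}
    {X : ∀ j : J, Matrix (Fin (𝓕.n j)) (Fin (𝓕.n j)) ℂ}
    (hX : ∀ j : J, X j ∈ FM (Qt (n := 𝓕.n j) (𝓕.f j) (t j)) lam) : X ∈ Torsor 𝓕 t J lam := by
  intro j
  have h1 : X j * Qt (n := 𝓕.n j) (𝓕.f j) (t j) * (X j).transpose = lam • jm ℂ (𝓕.n j) := hX j
  have e1 : polDR (𝓕.n j) (𝓕.f j * (Polynomial.X - C (1 / (t j : ℚ)))) =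
      qm (𝓕.n j) (𝓕.f j * (Polynomial.X - C (1 / (t j : ℚ)))) := rfl
  have e2 : polB (𝓕.n j) = bm ℚ (𝓕.n j) := rfl
  rw [e1, e2, qm_eq, bm_eq]
  unfold Qt at h1
  rw [Matrix.mul_smul, Matrix.smul_mul] at h1
  calc X j * (Qp (𝓕.n j) (𝓕.f j)).map (aeval (((1 / (t j : ℚ) : ℚ)) : ℂ)) * (X j).transpose
      = (-2 : ℂ) • ((-1 / 2 : ℂ) • (X j * (Qp (𝓕.n j) (𝓕.f j)).map (aeval (((1 / (t j : ℚ) : ℚ)) : ℂ)) *
          (X j).transpose)) := by rw [smul_smul]; norm_num
    _ = lam • (-2 : ℂ) • jm ℂ (𝓕.n j) := by rw [h1, smul_comm]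

open Classical in
/-- a point of the torsor as a point of the product of all fibres -/
noncomputable def extend {𝓕 : Families} {J : Set ℕ} (X : ∀ j : J, Matrix (Fin (𝓕.n j)) (Fin (𝓕.n j)) ℂ) :
    (Σ j : ℕ, Fin (𝓕.n j) × Fin (𝓕.n j)) → ℂ := fun x => if h : x.1 ∈ J then X ⟨x.1, h⟩ x.2.1 x.2.2 else 0

theorem extend_io {𝓕 : Families} {J : Set ℕ} (X : ∀ j : J, Matrix (Fin (𝓕.n j)) (Fin (𝓕.n j)) ℂ) :
    extend X ∘ io 𝓕.n J = entries X := by
  funext x
  show extend X (io 𝓕.n J x) = entries X x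
  unfold extend io entries
  simp only
  rw [dif_pos x.1.2]

theorem extend_mem {𝓕 : Families} {t : ℕ → ℕ} {J : Set ℕ} {lam : ℂ}
    {X : ∀ j : J, Matrix (Fin (𝓕.n j)) (Fin (𝓕.n j)) ℂ} (hX : X ∈ Torsor 𝓕 t J lam) (j : ℕ) :
    (fun i => extend X ⟨j, i⟩) ∈ Fs J (fun j => Qt (n := 𝓕.n j) (𝓕.f j) (t j)) lam j := by
  unfold Fs extend
  by_cases h : j ∈ J
  · rw [if_pos h]
    simp only [dif_pos h]
    exact mem_Torsor hX ⟨j, h⟩
  · rw [if_neg h]
    simp only [dif_neg h]
    rfl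

theorem ps_io (𝓕 : Families) (t : ℕ → ℕ) (J : Set ℕ) :
    ps 𝓕.a 𝓕.m t J ∘ io 𝓕.n J = entries (𝓕 := 𝓕) (J := J) fun j => mat 𝓕 t j := by
  funext x
  show ps 𝓕.a 𝓕.m t J (io 𝓕.n J x) = _
  unfold ps io
  simp only
  rw [if_pos x.1.2]
  rfl

/-- Let `𝓕` be a sequence of families of hyperelliptic curves and `ψ : ℕ → ℕ` any function. There are `γ_j > 0` and `M_j`
such that for every sequence `c` of complex numbers there are sets `B_j(t)` of natural numbers, which depend only on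
`t_0, …, t_(j-1)` and contain at most `M_j T^(1 - γ_j)` of the integers `1 ≤ τ ≤ T`, such that for all sequences `t` of
natural numbers and all sets `J` (finite or infinite) with `t_j ≥ 1`, `t_j ∉ B_j(t)` for `j ∈ J`: the `1 / t_j`, `j ∈ J`, are
in the same gaps as `0`, the period matrices of the curves `C_j`, `j ∈ J`, are on the torsor over `2πi`; and for all `k`
with `k ≤ j` for `j ∈ J`, all relations of degree `≤ ψ(k)` over number fields of degree `≤ ψ(k)` between `2πi` and the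
periods of the curves `C_j`, `j ∈ J`, hold on the torsor, and all such relations with `2πi`, the `c_i`, `i < ψ(k)`, and the
periods of the `C_i`, `i < k`, hold on the torsor over `2πi`. -/
theorem result (𝓕 : Families) (ψ : ℕ → ℕ) :
    ∃ γ M : ℕ → ℝ, (∀ j, 0 < γ j) ∧ ∀ c : ℕ → ℂ, ∃ B : ℕ → (ℕ → ℕ) → Set ℕ,
      (∀ j t t', (∀ i < j, t i = t' i) → B j t = B j t') ∧
      (∀ j t T, 1 ≤ T → ((B j t ∩ Set.Icc 1 T).ncard : ℝ) ≤ M j * (T : ℝ) ^ (1 - γ j)) ∧
      ∀ (t : ℕ → ℕ) (J : Set ℕ), (∀ j ∈ J, 1 ≤ t j ∧ t j ∉ B j t) →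
        (∀ j ∈ J, StrictMono (branch (𝓕.a j) (𝓕.m j) (1 / (t j : ℝ)))) ∧
        (fun j : J => mat 𝓕 t j) ∈ Torsor 𝓕 t J (2 * Real.pi * Complex.I) ∧
        ∀ k, (∀ j ∈ J, k ≤ j) →
          DegreeGPC 𝓕 t J (ψ k) ∧ RelativeGPC 𝓕 t J (known 𝓕 c t (ψ k) k) (ψ k) := by
  have ha : ∀ j, StrictMono (𝓕.a j) := fun j => (inGap_of_er (𝓕.gap j)).1
  have hg0 : ∀ j, InGap (𝓕.a j) (𝓕.m j) 0 := fun j => (inGap_of_er (𝓕.gap j)).2
  obtain ⟨γ, M, hγ, hmain⟩ := main 𝓕.even 𝓕.a ha 𝓕.f 𝓕.roots 𝓕.m hg0 ψ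
  refine ⟨γ, M, hγ, fun c => ?_⟩
  obtain ⟨B, hB1, hB2, hB3⟩ := hmain c
  refine ⟨B, hB1, hB2, fun t J hJ => ?_⟩
  obtain ⟨hgap, hrel⟩ := hB3 t J fun j hj => (hJ j hj).2
  refine ⟨fun j hj => er_of_inGap (ha j) (hgap j hj), Torsor_of fun j => ?_, fun k hk => ⟨?_, ?_⟩⟩
  · have hcast : (((1 / (t j : ℚ) : ℚ)) : ℝ) = 1 / (t j : ℝ) := by push_cast; rfl
    have h1 := hgap j j.2
    rw [← hcast] at h1
    have h2 := CM_mem (𝓕.even j) (ha j) (𝓕.roots j) h1
    rw [hcast] at h2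
    exact h2
  · intro K _ _ φ P hK hP h0 lam hl X hX
    have h1 := (hrel k hk K hK φ).1 P hP (by
      rw [ps_io, MvPolynomial.aeval_eq_eval]
      exact h0) lam hl (extend X) (extend_mem hX)
    rw [extend_io, MvPolynomial.aeval_eq_eval] at h1
    exact h1
  · intro K _ _ φ P hK hP h0 X hX
    have h1 := (hrel k hk K hK φ).2 P hP (by
      rw [ps_io, MvPolynomial.aeval_eq_eval]
      exact h0) (extend X) (extend_mem hX)
    rw [extend_io, MvPolynomial.aeval_eq_eval] at h1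
    exact h1

end Pool.Agent.Results.MP_77d3f5_ag.InfiniteSequences
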