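import Pool.Agent.L5helper73.Inf.X

/-!
# The Grothendieck period conjecture in bounded degree for ALL curves, with few exceptions, in infinitely many windows

`f_0, f_1, f_2, …` is any sequence of monic polynomials over `ℚ` of even degrees `n_j = 2 g_j` with distinct real roots,
different from `0`. For each `j` we consider a window of `H_j` hyperelliptic curves of genus `g_j`,
`C_(j,u) : y² = f_j(x) (x - 1/(t_j - G_j u))`, `1 ≤ u ≤ H_j`. Here the `H_j` are arbitrary, and the integers `t_j` are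
arbitrary, too, as long as they are larger than certain thresholds `τ_j`. Then there are sets `S_j` of at most
`Ψ_j + ∑_(i < j) H_i n_i² + n_j (n_j + 1) / 2 + 1` exceptional numbers `u`, a bound that does not depend on `H_j`, such that
the periods of ALL the other curves of ALL the windows together satisfy the period conjecture in bounded degree: for every
`k` all relations of degree `≤ ψ(k)` over number fields of degree `≤ ψ(k)`, without any bound for the heights, between `2πi`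
and the periods of arbitrary sets (finite or infinite) of such curves from the windows `j ≥ k` come from the
polarisations; and this is so even relative to the first terms of a given sequence of complex numbers and to ALL the curves,
exceptional or not, of the windows `i < k`. Here `ψ` is any function and `Ψ_j = ψ(0) + … + ψ(j)`.

In the starting theorem `HyperellipticWindows` of this problem there is one window, and the exceptional set depends on the
number of the curves in the products which are considered. In the theorem `InfiniteSequences` the integers `t_j` have to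
avoid an exceptional set, and there is one curve for each `j`.
-/

set_option autoImplicit false

open Polynomial NumberField

namespace Pool.Agent.Results.MP_77d3f5_ag.InfiniteWindows

/-- the branch points: `t` inserted at place `m` in the sequence of the `a i` -/
noncomputable def branch {n : ℕ} (a : Fin n → ℝ) (m : Fin (n + 1)) (t : ℝ) : Fin (n + 1) → ℝ :=
  Fin.insertNth (α := fun _ => ℝ) m t a

/-- the period `∮ x^j dx / y`, `y² = ∏ (x - e i)`, over the loop around the segment `[e l, e (l + 1)]`, that is twice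
the integral over the segment (principal branch of the square root) -/
noncomputable def period {n : ℕ} (e : Fin (n + 1) → ℝ) (l j : Fin n) : ℂ :=
  2 * ∫ x in (e l.castSucc)..(e l.succ), (x : ℂ) ^ (j : ℕ) / (((∏ i, (x - e i) : ℝ) : ℂ) ^ (1 / 2 : ℂ))

/-- the polarisation in terms of the forms `x^j dx / y`, `y² = F(x) = ∑ c_k x^k`: entries `(i - j)/2 * c_(i+j+2)` -/
noncomputable def polDR (n : ℕ) (F : ℚ[X]) : Matrix (Fin n) (Fin n) ℚ :=
  Matrix.of fun i j => (((i : ℕ) : ℚ) - ((j : ℕ) : ℚ)) / 2 * F.coeff ((i : ℕ) + (j : ℕ) + 2)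

/-- the polarisation in terms of the loops: `2 (-1)^r` at `(r, s)`, `|r - s| = 1` -/
def polB (n : ℕ) : Matrix (Fin n) (Fin n) ℚ :=
  Matrix.of fun r s => if (r : ℕ) = s + 1 ∨ (s : ℕ) = r + 1 then 2 * (-1) ^ (r : ℕ) else 0

/-- a sequence of families of curves `y² = f_j(x) (x - z)`, `j = 0, 1, 2, …`: `f_j` is monic over `ℚ` of even degree `n_j`
with roots `a_j`, real, in increasing order, different from `0`; `m_j` is the place of `0` among the roots -/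
structure Families where
  /-- the degrees -/
  n : ℕ → ℕ
  even : ∀ j, Even (n j)
  /-- the roots -/
  a : ∀ j, Fin (n j) → ℝ
  /-- the polynomials -/
  f : ℕ → ℚ[X]
  roots : ∀ j, (f j).map (algebraMap ℚ ℝ) = ∏ i, (X - C (a j i))
  /-- the place of `0` -/
  m : ∀ j, Fin (n j + 1)
  gap : ∀ j, StrictMono (branch (a j) (m j) 0)

/-- the integer `t_j - G_j u`, `x = (j, u)` -/
def num (t G : ℕ → ℕ) (x : ℕ × ℕ) : ℕ := t x.1 - G x.1 * x.2

/-- the period matrix of the curve `C_x : y² = f_j(x) (x - 1 / (t_j - G_j u))`, `x = (j, u)` -/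
noncomputable def mat (𝓕 : Families) (t G : ℕ → ℕ) (x : ℕ × ℕ) : Matrix (Fin (𝓕.n x.1)) (Fin (𝓕.n x.1)) ℂ :=
  Matrix.of (period (branch (𝓕.a x.1) (𝓕.m x.1) (1 / (num t G x : ℝ))))

/-- the indices of the entries of the matrices of the curves `C_x`, `x ∈ J` -/
abbrev Ind (𝓕 : Families) (J : Set (ℕ × ℕ)) : Type := Σ x : J, Fin (𝓕.n x.1.1) × Fin (𝓕.n x.1.1)

/-- the entries of the matrices `X_x`, `x ∈ J` -/
def entries {𝓕 : Families} {J : Set (ℕ × ℕ)} (X : ∀ x : J, Matrix (Fin (𝓕.n x.1.1)) (Fin (𝓕.n x.1.1)) ℂ) : Ind 𝓕 J → ℂ :=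
  fun y => X y.1 y.2.1 y.2.2

/-- the complex points over `lam` of the torsor of the curves `C_x`, `x ∈ J`: the `X_x` with
`X_x polDR(F_x) X_xᵀ = lam polB` for all `x = (j, u) ∈ J`, `F_x = f_j(x) (x - 1 / (t_j - G_j u))` -/
def Torsor (𝓕 : Families) (t G : ℕ → ℕ) (J : Set (ℕ × ℕ)) (lam : ℂ) :
    Set (∀ x : J, Matrix (Fin (𝓕.n x.1.1)) (Fin (𝓕.n x.1.1)) ℂ) :=
  {X | ∀ x : J, X x * (polDR (𝓕.n x.1.1) (𝓕.f x.1.1 * (Polynomial.X - C (1 / (num t G x.1 : ℚ))))).map (algebraMap ℚ ℂ) *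
    (X x).transpose = lam • (polB (𝓕.n x.1.1)).map (algebraMap ℚ ℂ)}

/-- every polynomial `P` of degree `≤ D` with coefficients in a number field of degree `≤ D` (any such field, no bound
on the height of the coefficients), which vanishes at `2πi` and the periods of the curves `C_x`, `x ∈ J`, vanishes at all
points `(lam, X)`, `lam ≠ 0`, `X ∈ Torsor lam` -/
def DegreeGPC (𝓕 : Families) (t G : ℕ → ℕ) (J : Set (ℕ × ℕ)) (D : ℕ) : Prop :=
  ∀ (K : Type) [Field K] [NumberField K] (φ : K →+* ℂ) (P : MvPolynomial (Option (Ind 𝓕 J)) K),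
    Module.finrank ℚ K ≤ D → P.totalDegree ≤ D →
    (P.map φ).eval (fun o => o.elim (2 * Real.pi * Complex.I) (entries fun x => mat 𝓕 t G x)) = 0 →
    ∀ lam : ℂ, lam ≠ 0 → ∀ X ∈ Torsor 𝓕 t G J lam, (P.map φ).eval (fun o => o.elim lam (entries X)) = 0

/-- the known numbers: `2πi`, the first `D` terms of the sequence `c`, the periods of all the curves `C_(i,u)`,
`1 ≤ u ≤ H_i`, of the windows `i < k` -/
def known (𝓕 : Families) (c : ℕ → ℂ) (t G H : ℕ → ℕ) (D k : ℕ) : Set ℂ :=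
  {z | z = 2 * Real.pi * Complex.I ∨ (∃ i < D, z = c i) ∨
    ∃ i < k, ∃ u, 1 ≤ u ∧ u ≤ H i ∧ ∃ l l', z = mat 𝓕 t G (i, u) l l'}

/-- relations relative to a set `S` of numbers: every polynomial `P` of degree `≤ D` with coefficients in a number field of
degree `≤ D`, in elements of `S` and in the entries of the matrices, which vanishes at the periods of the curves `C_x`,
`x ∈ J`, vanishes at all the points of the torsor over `2πi` (with the same elements of `S`) -/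
def RelativeGPC (𝓕 : Families) (t G : ℕ → ℕ) (J : Set (ℕ × ℕ)) (S : Set ℂ) (D : ℕ) : Prop :=
  ∀ (K : Type) [Field K] [NumberField K] (φ : K →+* ℂ) (P : MvPolynomial (S ⊕ Ind 𝓕 J) K),
    Module.finrank ℚ K ≤ D → P.totalDegree ≤ D →
    (P.map φ).eval (Sum.elim (fun z : S => (z : ℂ)) (entries fun x => mat 𝓕 t G x)) = 0 →
    ∀ X ∈ Torsor 𝓕 t G J (2 * Real.pi * Complex.I), (P.map φ).eval (Sum.elim (fun z : S => (z : ℂ)) (entries X)) = 0

open Pool.Agent.L5helper73.Inf Pool.Agent.Y118.HP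
open Pool.Agent.Y118.HG hiding Qt

theorem mem_Torsor {𝓕 : Families} {t G : ℕ → ℕ} {J : Set (ℕ × ℕ)} {lam : ℂ}
    {X : ∀ x : J, Matrix (Fin (𝓕.n x.1.1)) (Fin (𝓕.n x.1.1)) ℂ} (hX : X ∈ Torsor 𝓕 t G J lam) (x : J) :
    X x ∈ FM (Qt (n := 𝓕.n x.1.1) (𝓕.f x.1.1) (num t G x.1)) lam := by
  have h1 := hX x
  have e1 : polDR (𝓕.n x.1.1) (𝓕.f x.1.1 * (Polynomial.X - C (1 / (num t G x.1 : ℚ)))) =
      qm (𝓕.n x.1.1) (𝓕.f x.1.1 * (Polynomial.X - C (1 / (num t G x.1 : ℚ)))) := rfl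
  have e2 : polB (𝓕.n x.1.1) = bm ℚ (𝓕.n x.1.1) := rfl
  rw [e1, e2, qm_eq, bm_eq] at h1
  show X x * Qt (n := 𝓕.n x.1.1) (𝓕.f x.1.1) (num t G x.1) * (X x).transpose = lam • jm ℂ (𝓕.n x.1.1)
  unfold Qt
  rw [Matrix.mul_smul, Matrix.smul_mul, h1, smul_smul, smul_smul]
  congr 1
  ring

theorem Torsor_of {𝓕 : Families} {t G : ℕ → ℕ} {J : Set (ℕ × ℕ)} {lam : ℂ}
    {X : ∀ x : J, Matrix (Fin (𝓕.n x.1.1)) (Fin (𝓕.n x.1.1)) ℂ}
    (hX : ∀ x : J, X x ∈ FM (Qt (n := 𝓕.n x.1.1) (𝓕.f x.1.1) (num t G x.1)) lam) : X ∈ Torsor 𝓕 t G J lam := by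
  intro x
  have h1 : X x * Qt (n := 𝓕.n x.1.1) (𝓕.f x.1.1) (num t G x.1) * (X x).transpose = lam • jm ℂ (𝓕.n x.1.1) := hX x
  have e1 : polDR (𝓕.n x.1.1) (𝓕.f x.1.1 * (Polynomial.X - C (1 / (num t G x.1 : ℚ)))) =
      qm (𝓕.n x.1.1) (𝓕.f x.1.1 * (Polynomial.X - C (1 / (num t G x.1 : ℚ)))) := rfl
  have e2 : polB (𝓕.n x.1.1) = bm ℚ (𝓕.n x.1.1) := rfl
  rw [e1, e2, qm_eq, bm_eq]
  unfold Qt at h1
  rw [Matrix.mul_smul, Matrix.smul_mul] at h1
  calc X x * (Qp (𝓕.n x.1.1) (𝓕.f x.1.1)).map (aeval (((1 / (num t G x.1 : ℚ) : ℚ)) : ℂ)) * (X x).transpose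
      = (-2 : ℂ) • ((-1 / 2 : ℂ) • (X x * (Qp (𝓕.n x.1.1) (𝓕.f x.1.1)).map (aeval (((1 / (num t G x.1 : ℚ) : ℚ)) : ℂ)) *
          (X x).transpose)) := by rw [smul_smul]; norm_num
    _ = lam • (-2 : ℂ) • jm ℂ (𝓕.n x.1.1) := by rw [h1, smul_comm]

/-- the inclusion of the indices -/
def io (𝓕 : Families) (J : Set (ℕ × ℕ)) (y : Ind 𝓕 J) : Σ j : ℕ, IW (𝓕.n j) := ⟨y.1.1.1, ⟨y.1.1.2, y.2⟩⟩

open Classical in
/-- a point of the torsor as a point of the product of all fibres -/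
noncomputable def extend {𝓕 : Families} {J : Set (ℕ × ℕ)} (y0 : ∀ j, IW (𝓕.n j) → ℂ)
    (X : ∀ x : J, Matrix (Fin (𝓕.n x.1.1)) (Fin (𝓕.n x.1.1)) ℂ) : (Σ j : ℕ, IW (𝓕.n j)) → ℂ :=
  fun y => if h : (y.1, y.2.1) ∈ J then X ⟨(y.1, y.2.1), h⟩ y.2.2.1 y.2.2.2 else y0 y.1 y.2

theorem extend_io {𝓕 : Families} {J : Set (ℕ × ℕ)} (y0 : ∀ j, IW (𝓕.n j) → ℂ)
    (X : ∀ x : J, Matrix (Fin (𝓕.n x.1.1)) (Fin (𝓕.n x.1.1)) ℂ) : extend y0 X ∘ io 𝓕 J = entries X := by
  funext y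
  show extend y0 X (io 𝓕 J y) = entries X y
  unfold extend io entries
  simp only
  rw [dif_pos y.1.2]

theorem extend_mem {𝓕 : Families} {t G H : ℕ → ℕ} {S : ℕ → Finset ℕ} {J : Set (ℕ × ℕ)} {lam : ℂ}
    (hJ : ∀ x ∈ J, 1 ≤ x.2 ∧ x.2 ≤ H x.1 ∧ x.2 ∉ S x.1) {y0 : ∀ j, IW (𝓕.n j) → ℂ}
    (hy0 : ∀ j, y0 j ∈ FW (↑(Finset.Icc 1 (H j) \ S j) : Set ℕ) (fun u => Qt (n := 𝓕.n j) (𝓕.f j) (t j - G j * u)) lam)
    {X : ∀ x : J, Matrix (Fin (𝓕.n x.1.1)) (Fin (𝓕.n x.1.1)) ℂ} (hX : X ∈ Torsor 𝓕 t G J lam) (j : ℕ) :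
    (fun i => extend y0 X ⟨j, i⟩) ∈
      FW (↑(Finset.Icc 1 (H j) \ S j) : Set ℕ) (fun u => Qt (n := 𝓕.n j) (𝓕.f j) (t j - G j * u)) lam := by
  intro u
  by_cases h : (j, u) ∈ J
  · have h1 : u ∈ (↑(Finset.Icc 1 (H j) \ S j) : Set ℕ) := by
      obtain ⟨h2, h3, h4⟩ := hJ _ h
      exact Finset.mem_coe.2 (Finset.mem_sdiff.2 ⟨Finset.mem_Icc.2 ⟨h2, h3⟩, h4⟩)
    unfold Fs extend
    rw [if_pos h1]
    simp only [dif_pos h]
    exact mem_Torsor hX ⟨(j, u), h⟩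
  · have h1 := hy0 j u
    unfold extend
    simp only [dif_neg h]
    exact h1

/-- Let `𝓕` be a sequence of families of hyperelliptic curves and `ψ : ℕ → ℕ` any function. There are `G0_j` such that for
all `G_j ≥ G0_j` and all `H_j` there are `τ_j` such that for ALL integers `t_j ≥ τ_j`: (a) the `1 / (t_j - G_j u)`,
`0 ≤ u ≤ H_j`, are in the same gap as `0`, and `G_j u < t_j`; (b) for every sequence `c` of complex numbers there are sets
`S_j` of integers `1 ≤ u ≤ H_j`, where `2 |S_j| ≤ 2 (ψ(0) + … + ψ(j) + ∑_(i < j) H_i n_i²) + n_j (n_j + 1) + 2`, such that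
for all sets `J` (finite or infinite) of pairs `x = (j, u)` with `1 ≤ u ≤ H_j` and `u ∉ S_j`: the period matrices of the
curves `C_x`, `x ∈ J`, are on the torsor over `2πi`; and for all `k` with `k ≤ j` for all `(j, u) ∈ J`, all relations of
degree `≤ ψ(k)` over number fields of degree `≤ ψ(k)` between `2πi` and the periods of the curves `C_x`, `x ∈ J`, hold on
the torsor, and all such relations with `2πi`, the `c_i`, `i < ψ(k)`, and the periods of all the curves of the windows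
`i < k` hold on the torsor over `2πi`. -/
theorem result (𝓕 : Families) (ψ : ℕ → ℕ) :
    ∃ G0 : ℕ → ℕ, ∀ G : ℕ → ℕ, (∀ j, G0 j ≤ G j) → ∀ H : ℕ → ℕ, ∃ τ : ℕ → ℕ, ∀ t : ℕ → ℕ, (∀ j, τ j ≤ t j) →
      (∀ j u, u ≤ H j → G j * u < t j ∧ StrictMono (branch (𝓕.a j) (𝓕.m j) (1 / (num t G (j, u) : ℝ)))) ∧
      ∀ c : ℕ → ℂ, ∃ S : ℕ → Finset ℕ, (∀ j, S j ⊆ Finset.Icc 1 (H j)) ∧
        (∀ j, 2 * (S j).card ≤ 2 * (∑ i ∈ Finset.range (j + 1), ψ i + ∑ i ∈ Finset.range j, H i * (𝓕.n i * 𝓕.n i)) +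
          𝓕.n j * (𝓕.n j + 1) + 2) ∧
        ∀ J : Set (ℕ × ℕ), (∀ x ∈ J, 1 ≤ x.2 ∧ x.2 ≤ H x.1 ∧ x.2 ∉ S x.1) →
          (fun x : J => mat 𝓕 t G x) ∈ Torsor 𝓕 t G J (2 * Real.pi * Complex.I) ∧
          ∀ k, (∀ x ∈ J, k ≤ x.1) →
            DegreeGPC 𝓕 t G J (ψ k) ∧ RelativeGPC 𝓕 t G J (known 𝓕 c t G H (ψ k) k) (ψ k) := by
  have ha : ∀ j, StrictMono (𝓕.a j) := fun j => (inGap_of_er (𝓕.gap j)).1
  obtain ⟨G0, hmain⟩ := mainW 𝓕.even 𝓕.a 𝓕.f 𝓕.roots 𝓕.m 𝓕.gap ψ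
  refine ⟨G0, fun G hG H => ?_⟩
  obtain ⟨τ, hτ⟩ := hmain G hG H
  refine ⟨τ, fun t ht => ?_⟩
  obtain ⟨hgap, hc⟩ := hτ t ht
  refine ⟨fun j u hu => ⟨(hgap j u hu).1, er_of_inGap (ha j) (hgap j u hu).2⟩, fun c => ?_⟩
  obtain ⟨S, hS1, hS2, δ, hδ, W, hW, D, hD, hA⟩ := hc c
  refine ⟨S, hS1, hS2, fun J hJ => ?_⟩
  set p : (Σ j, IW (𝓕.n j)) → ℂ := fun x => pWi (𝓕.a x.1) (𝓕.m x.1) (fun u => t x.1 - G x.1 * u)
    (↑(Finset.Icc 1 (H x.1) \ S x.1) : Set ℕ) x.2 with hp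
  have hpio : p ∘ io 𝓕 J = entries (𝓕 := 𝓕) (J := J) fun x => mat 𝓕 t G x := by
    funext y
    have h1 : y.1.1.2 ∈ (↑(Finset.Icc 1 (H y.1.1.1) \ S y.1.1.1) : Set ℕ) := by
      obtain ⟨h2, h3, h4⟩ := hJ _ y.1.2
      exact Finset.mem_coe.2 (Finset.mem_sdiff.2 ⟨Finset.mem_Icc.2 ⟨h2, h3⟩, h4⟩)
    show p (io 𝓕 J y) = _
    rw [hp]
    unfold pWi io
    simp only
    rw [if_pos h1]
    rfl
  refine ⟨Torsor_of fun x => ?_, fun k hk => ⟨?_, ?_⟩⟩
  · obtain ⟨h2, h3, h4⟩ := hJ _ x.2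
    have hcast : (((1 / (num t G x.1 : ℚ) : ℚ)) : ℝ) = 1 / (num t G x.1 : ℝ) := by push_cast; rfl
    have h1 : InGap (𝓕.a x.1.1) (𝓕.m x.1.1) (1 / (num t G x.1 : ℝ)) := (hgap x.1.1 x.1.2 h3).2
    rw [← hcast] at h1
    have h2 := CM_mem (𝓕.even x.1.1) (ha x.1.1) (𝓕.roots x.1.1) h1
    rw [hcast] at h2
    exact h2
  · intro K _ _ φ P hK hP h0 lam hl X hX
    have hne : ∀ j, ∃ y0, y0 ∈ D.F lam j := fun j => D.F_ne lam j
    choose y0 hy0 using hne
    have h1 := hA.absK (io := io 𝓕 J) (k := k) (e := ψ k) (fun x => ⟨Set.mem_univ _, hk _ x.1.2⟩)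
      (fun j _ hkj => hδ k j hkj) K hK φ P hP (by
        rw [hpio, MvPolynomial.aeval_eq_eval]
        exact h0) hl (extend y0 X) (fun j => by
          rw [hD]
          exact extend_mem hJ (fun j => by have := hy0 j; rwa [hD] at this) hX j)
    rw [extend_io, MvPolynomial.aeval_eq_eval] at h1
    exact h1
  · intro K _ _ φ P hK hP h0 X hX
    have hne : ∀ j, ∃ y0, y0 ∈ D.F (2 * Real.pi * Complex.I) j := fun j => D.F_ne _ j
    choose y0 hy0 using hne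
    have h1 := hA.relK (io := io 𝓕 J) (k := k) (e := ψ k) (fun x => ⟨Set.mem_univ _, hk _ x.1.2⟩)
      (fun j _ hkj => hδ k j hkj) (κ := known 𝓕 c t G H (ψ k) k) (hW k) K hK φ P hP (by
        rw [hpio, MvPolynomial.aeval_eq_eval]
        exact h0) (extend y0 X) (fun j => by
          rw [hD]
          exact extend_mem hJ (fun j => by have := hy0 j; rwa [hD] at this) hX j)
    rw [extend_io, MvPolynomial.aeval_eq_eval] at h1
    exact h1

end Pool.Agent.Results.MP_77d3f5_ag.InfiniteWindows
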